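import Pool.Agent.Run7.h731.HK.Norm2

/-!
# The share of the representations with large, or with small, eigenvalues
-/

set_option autoImplicit false
set_option linter.unusedSectionVars false

namespace Pool.Agent.Run7.h546.SC

open NumberField IsDedekindDomain Filter Topology
open Pool.Agent.TH861.GL3 (PL qq)
open Pool.Agent.Run7.h731.HK
open _root_.Run7.h911.RC (rt Unitary cf cf_tt cf_mul norm_sq rt_sq)

variable {K : Type*} [Field K] [NumberField K] {S : Finset (HeightOneSpectrum (𝓞 K))}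
variable {G : Type*} [CommGroup G] [TopologicalSpace G] [IsTopologicalGroup G] [CompactSpace G]
  {m : ℕ} {X : Subgroup (G →ₜ* Circle)} {g : PL S → G} {α : Fin m → PL S → Fin 2 → ℂ}
variable [T2Space G] [MeasurableSpace G] [BorelSpace G]
variable (μ : MeasureTheory.Measure G) [μ.IsMulLeftInvariant] [MeasureTheory.IsProbabilityMeasure μ]
  [μ.OuterRegular] {U : Set G}

/-- large values of the mean of a combination of the traces for `Ad π_i` and `A⁴ π_i` -/
theorem lin_dev (h : HeckeFamily X g α) (hU : MeasurableSet U) (hf : μ (frontier U) = 0)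
    (h0 : 0 < μ.real U) (a b : ℝ) (hab : 0 < a ^ 2 + b ^ 2) {d : ℝ} (hd : 0 ≤ d) :
    RelLe g U (fun v => (m : ℝ) * d ≤ ∑ i, (a * rt 0 (α i v) 1 + b * rt 1 (α i v) 1))
      (1 / (1 + (m : ℝ) * (d ^ 2 / (a ^ 2 + b ^ 2)))) := by
  obtain ⟨w, hw⟩ : ∃ w : ℝ, w = a ^ 2 + b ^ 2 := ⟨_, rfl⟩
  rw [← hw] at hab ⊢
  have hk1 : 0 < 1 + (m : ℝ) * (d ^ 2 / w) := by positivity
  refine set_bound μ h hU hf h0 (cf 1 (fun _ => d / w * a) (fun _ => d / w * b))
    (cf 1 (fun _ => d / w * a) (fun _ => d / w * b)) (fun v n => mul_self_nonneg _)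
    (M := (1 + (m : ℝ) * (d ^ 2 / w)) ^ 2) (by positivity) ?_ _ (fun v hv => ?_)
  · rw [cf_mul, Finset.sum_const, Finset.card_univ, Fintype.card_fin, nsmul_eq_mul]
    have h1 : d / w * a * (d / w * a) + d / w * b * (d / w * b) = d ^ 2 / w := by
      have h2 : d / w * a * (d / w * a) + d / w * b * (d / w * b) = d ^ 2 / w ^ 2 * (a ^ 2 + b ^ 2) := by
        ring
      rw [h2, ← hw]
      field_simp
    rw [h1]
    field_simp
  · rw [cf_tt, ← pow_two]
    apply pow_le_pow_left₀ hk1.le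
    have hsum : ∑ i, (d / w * a * rt 0 (α i v) 1 + d / w * b * rt 1 (α i v) 1) =
        d / w * ∑ i, (a * rt 0 (α i v) 1 + b * rt 1 (α i v) 1) := by
      rw [Finset.mul_sum]
      exact Finset.sum_congr rfl fun i _ => by ring
    rw [hsum]
    have h1 : (m : ℝ) * (d ^ 2 / w) = d / w * ((m : ℝ) * d) := by ring
    rw [h1]
    have h2 := mul_le_mul_of_nonneg_left hv (div_nonneg hd hab.le)
    linarith

/-- **The share of the representations** with `z ≤ η (|α + β|² - 1)`, `η = ± 1`. -/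
theorem share (h : HeckeFamily X g α) (hU : MeasurableSet U) (hf : μ (frontier U) = 0)
    (h0 : 0 < μ.real U) {η : ℝ} (hη : η = 1 ∨ η = -1) {z c κ : ℝ} (hz : 0 ≤ z + c)
    (hκ : 1 + c ^ 2 ≤ κ * (z + c) ^ 2) :
    RelLe g U (fun v => κ * (m : ℝ) ≤
        (Nat.card {i : Fin m // z ≤ η * (‖α i v 0 + α i v 1‖ ^ 2 - 1)} : ℝ))
      (1 / (1 + (m : ℝ) * ((κ * (z + c) ^ 2 - (1 + c ^ 2)) ^ 2 / ((1 + 2 * η * c) ^ 2 + 1)))) := by
  classical
  have key := lin_dev μ h hU hf h0 (1 + 2 * η * c) 1 (by positivity)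
    (d := κ * (z + c) ^ 2 - (1 + c ^ 2)) (by linarith)
  rw [one_pow] at key
  refine key.mono fun v hv => ?_
  have hη2 : η ^ 2 = 1 := by rcases hη with h1 | h1 <;> rw [h1] <;> norm_num
  have e : ∀ i, (1 + 2 * η * c) * rt 0 (α i v) 1 + 1 * rt 1 (α i v) 1 =
      (η * rt 0 (α i v) 1 + c) ^ 2 - (1 + c ^ 2) := by
    intro i
    have h4 := rt_sq (h.unitary i v) 1
    linear_combination (-1) * h4 + (-(rt 0 (α i v) 1 ^ 2)) * hη2
  rw [Finset.sum_congr rfl fun i _ => e i, Finset.sum_sub_distrib, Finset.sum_const, Finset.card_univ,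
    Fintype.card_fin, nsmul_eq_mul]
  have h1 : (Nat.card {i : Fin m // z ≤ η * (‖α i v 0 + α i v 1‖ ^ 2 - 1)} : ℝ) * (z + c) ^ 2 ≤
      ∑ i, (η * rt 0 (α i v) 1 + c) ^ 2 := by
    rw [Nat.card_eq_fintype_card, Fintype.card_subtype, ← nsmul_eq_mul, ← Finset.sum_const]
    refine le_trans (Finset.sum_le_sum fun i hi => ?_)
      (Finset.sum_le_sum_of_subset_of_nonneg (Finset.filter_subset _ _) fun i _ _ => sq_nonneg _)
    have h2 := (Finset.mem_filter.1 hi).2
    rw [norm_sq (h.unitary i v), add_sub_cancel_left] at h2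
    exact pow_le_pow_left₀ hz (by linarith) 2
  have h2 := mul_le_mul_of_nonneg_right hv (sq_nonneg (z + c))
  nlinarith

/-- **Fourth moments.** -/
theorem fourth (h : HeckeFamily X g α) (hU : MeasurableSet U) (hf : μ (frontier U) = 0)
    (h0 : 0 < μ.real U) {η : ℝ} (hη : η = 1 ∨ η = -1) {δ : ℝ} (hδ : 0 ≤ δ) :
    RelLe g U (fun v => (m : ℝ) * δ ≤ η * (∑ i, (‖α i v 0 + α i v 1‖ ^ 2) ^ 2 - 2 * m))
      (1 / (1 + (m : ℝ) * (δ ^ 2 / 10))) := by
  have hη2 : η ^ 2 = 1 := by rcases hη with h1 | h1 <;> rw [h1] <;> norm_num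
  have e10 : (3 * η) ^ 2 + η ^ 2 = 10 := by rw [mul_pow, hη2]; norm_num
  have key := lin_dev μ h hU hf h0 (3 * η) η (by rw [e10]; norm_num) hδ
  rw [e10] at key
  refine key.mono fun v hv => ?_
  have e : ∑ i, (3 * η * rt 0 (α i v) 1 + η * rt 1 (α i v) 1) =
      η * (∑ i, (‖α i v 0 + α i v 1‖ ^ 2) ^ 2 - 2 * m) := by
    have e1 : ∀ i, (‖α i v 0 + α i v 1‖ ^ 2) ^ 2 = 2 + (3 * rt 0 (α i v) 1 + rt 1 (α i v) 1) := by
      intro i
      rw [norm_sq (h.unitary i v)]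
      linear_combination rt_sq (h.unitary i v) 1
    have e2 : ∑ i, (‖α i v 0 + α i v 1‖ ^ 2) ^ 2 =
        2 * (m : ℝ) + ∑ i, (3 * rt 0 (α i v) 1 + rt 1 (α i v) 1) := by
      rw [Finset.sum_congr rfl fun i _ => e1 i, Finset.sum_add_distrib, Finset.sum_const, Finset.card_univ,
        Fintype.card_fin, nsmul_eq_mul, mul_comm (m : ℝ) 2]
    rw [e2, add_sub_cancel_left, Finset.mul_sum]
    exact Finset.sum_congr rfl fun i _ => by ring
  rw [e]
  exact hv

end Pool.Agent.Run7.h546.SC
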