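import Pool.Agent.Run7.h731.HK.Norm2

/-!
# Counting the embeddings of the field of coefficients
-/

set_option autoImplicit false
set_option linter.unusedSectionVars false

namespace Pool.Agent.Run7.h546.SC

variable {F : Type*} [Field F] [NumberField F] {E : Type*} [Field E] [NumberField E] [Algebra F E] {m : ℕ}

theorem card_fib (f : F →ₐ[ℚ] ℂ) :
    Nat.card (@AlgHom F E ℂ _ _ _ _ f.toRingHom.toAlgebra) = Module.finrank F E := by
  letI := f.toRingHom.toAlgebra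
  haveI : FiniteDimensional F E := Module.Finite.of_restrictScalars_finite ℚ F E
  rw [Nat.card_eq_fintype_card, AlgHom.card F E ℂ]

theorem norm_emb {t s : E} {u : F} (hs : ∃ n : ℕ, 0 < n ∧ s ^ n = 1) (hu : algebraMap F E u * s = t ^ 2)
    (τ : E →ₐ[ℚ] ℂ) : ‖τ t‖ ^ 2 = ‖(τ.domRestrict F) u‖ := by
  obtain ⟨n, hn, hs⟩ := hs
  have h1 : ‖τ s‖ = 1 := by
    have h2 : (τ s) ^ n = 1 := by rw [← map_pow, hs, map_one]
    have h3 : ‖τ s‖ ^ n = 1 := by rw [← norm_pow, h2, norm_one]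
    exact (pow_eq_one_iff_of_nonneg (norm_nonneg _) hn.ne').1 h3
  rw [← norm_pow, ← map_pow, ← hu, map_mul, norm_mul, h1, mul_one]
  rfl

theorem card_emb (e : Fin m ≃ (F →ₐ[ℚ] ℂ)) (P : ℝ → Prop) {t s : E} {u : F}
    (hs : ∃ n : ℕ, 0 < n ∧ s ^ n = 1) (hu : algebraMap F E u * s = t ^ 2) :
    Nat.card {τ : E →ₐ[ℚ] ℂ // P (‖τ t‖ ^ 2)} =
      Nat.card {i : Fin m // P ‖e i u‖} * Module.finrank F E := by
  classical
  have h1 : {τ : E →ₐ[ℚ] ℂ // P (‖τ t‖ ^ 2)} ≃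
      {p : Σ f : F →ₐ[ℚ] ℂ, @AlgHom F E ℂ _ _ _ _ f.toRingHom.toAlgebra // P ‖p.1 u‖} :=
    Equiv.subtypeEquiv (algHomEquivSigma (A := ℚ) (B := F) (C := E) (D := ℂ)) fun τ => by
      rw [norm_emb hs hu τ]
      rfl
  have h2 : {p : Σ f : F →ₐ[ℚ] ℂ, @AlgHom F E ℂ _ _ _ _ f.toRingHom.toAlgebra // P ‖p.1 u‖} ≃
      Σ f : {f : F →ₐ[ℚ] ℂ // P ‖f u‖}, @AlgHom F E ℂ _ _ _ _ f.1.toRingHom.toAlgebra :=
    Equiv.subtypeSigmaEquiv (fun f : F →ₐ[ℚ] ℂ => @AlgHom F E ℂ _ _ _ _ f.toRingHom.toAlgebra)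
      (fun f => P ‖f u‖)
  rw [Nat.card_congr h1, Nat.card_congr h2]
  haveI : ∀ f : F →ₐ[ℚ] ℂ, Finite (@AlgHom F E ℂ _ _ _ _ f.toRingHom.toAlgebra) := fun f => by
    letI := f.toRingHom.toAlgebra
    haveI : FiniteDimensional F E := Module.Finite.of_restrictScalars_finite ℚ F E
    infer_instance
  rw [Nat.card_sigma]
  rw [Finset.sum_congr rfl fun f _ => card_fib (E := E) f.1, Finset.sum_const, Finset.card_univ, smul_eq_mul,
    ← Nat.card_eq_fintype_card]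
  congr 1
  exact (Nat.card_congr (Equiv.subtypeEquiv e fun i => Iff.rfl)).symm

end Pool.Agent.Run7.h546.SC
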