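import Pool.Agent.Run7.h546.SC.Core
import Pool.Agent.Run7.h546.SC.Count

/-!
# From the representations to the embeddings of the field of coefficients
-/

set_option autoImplicit false
set_option linter.unusedSectionVars false

namespace Pool.Agent.Run7.h546.SC

open NumberField IsDedekindDomain Filter Topology
open Pool.Agent.TH861.GL3 (PL qq)
open Pool.Agent.Run7.h731.HK

variable {K : Type*} [Field K] [NumberField K] {S : Finset (HeightOneSpectrum (𝓞 K))}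
variable {G : Type*} [CommGroup G] [TopologicalSpace G] [IsTopologicalGroup G] [CompactSpace G]
  {m : ℕ} {X : Subgroup (G →ₜ* Circle)} {g : PL S → G} {α : Fin m → PL S → Fin 2 → ℂ}
variable {F : Type*} [Field F] [NumberField F] {E : Type*} [Field E] [NumberField E] [Algebra F E]
  {t s : PL S → E} {u : PL S → F} (e : Fin m ≃ (F →ₐ[ℚ] ℂ))

theorem norm_u (h : HeckeFamily X g α)
    (hu : ∀ i v, e i (u v) = (qq v.1 : ℂ) * ((α i v 0 + α i v 1) ^ 2 / (α i v 0 * α i v 1))) (i : Fin m) (v : PL S) :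
    ‖e i (u v)‖ = (qq v.1 : ℝ) * ‖α i v 0 + α i v 1‖ ^ 2 := by
  rw [hu, sq_div _ (h.unitary i v), norm_mul, Complex.norm_natCast, Complex.norm_real, Real.norm_eq_abs,
    abs_of_nonneg (by positivity)]

/-- the share of the embeddings is the share of the representations -/
theorem share_iff (P : ℝ → Prop) {v : PL S} (hs : ∃ n : ℕ, 0 < n ∧ s v ^ n = 1)
    (hu : algebraMap F E (u v) * s v = t v ^ 2) (κ : ℝ) :
    κ * (Module.finrank ℚ E : ℝ) ≤ (Nat.card {τ : E →ₐ[ℚ] ℂ // P (‖τ (t v)‖ ^ 2)} : ℝ) ↔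
      κ * (m : ℝ) ≤ (Nat.card {i : Fin m // P ‖e i (u v)‖} : ℝ) := by
  haveI : FiniteDimensional F E := Module.Finite.of_restrictScalars_finite ℚ F E
  have h1 : 0 < (Module.finrank F E : ℝ) := by exact_mod_cast Module.finrank_pos (R := F) (M := E)
  rw [card_emb e P hs hu, ← Module.finrank_mul_finrank ℚ F E, finrank_eq e]
  push_cast
  rw [← mul_assoc]
  constructor
  · exact fun h => le_of_mul_le_mul_right h h1
  · exact fun h => mul_le_mul_of_nonneg_right h h1.le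

theorem trace_sq (h : HeckeFamily X g α)
    (hu : ∀ i v, e i (u v) = (qq v.1 : ℂ) * ((α i v 0 + α i v 1) ^ 2 / (α i v 0 * α i v 1))) (v : PL S) :
    ((Algebra.trace ℚ F (u v ^ 2) : ℚ) : ℝ) = (qq v.1 : ℝ) ^ 2 * ∑ i, (‖α i v 0 + α i v 1‖ ^ 2) ^ 2 := by
  have h1 := trace_eq_sum_embeddings (K := ℚ) (L := F) ℂ (x := u v ^ 2)
  rw [← Equiv.sum_comp e] at h1
  have h2 : ∀ i, e i (u v ^ 2) = (((qq v.1 : ℝ) ^ 2 * (‖α i v 0 + α i v 1‖ ^ 2) ^ 2 : ℝ) : ℂ) := fun i => by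
    rw [map_pow, hu, sq_div _ (h.unitary i v)]
    push_cast
    ring
  rw [Finset.sum_congr rfl fun i _ => h2 i] at h1
  have h3 : ((((Algebra.trace ℚ F (u v ^ 2) : ℚ) : ℝ)) : ℂ) =
      (((qq v.1 : ℝ) ^ 2 * ∑ i, (‖α i v 0 + α i v 1‖ ^ 2) ^ 2 : ℝ) : ℂ) := by
    rw [Finset.mul_sum, Complex.ofReal_sum, ← h1]
    simp
  exact_mod_cast h3

variable [T2Space G] [MeasurableSpace G] [BorelSpace G]
variable (μ : MeasureTheory.Measure G) [μ.IsMulLeftInvariant] [MeasureTheory.IsProbabilityMeasure μ]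
  [μ.OuterRegular] {U : Set G}

theorem large_share (h : HeckeFamily X g α) (hU : MeasurableSet U) (hf : μ (frontier U) = 0)
    (h0 : 0 < μ.real U) (hs : ∀ v, ∃ n : ℕ, 0 < n ∧ s v ^ n = 1)
    (ht : ∀ v, algebraMap F E (u v) * s v = t v ^ 2)
    (hu : ∀ i v, e i (u v) = (qq v.1 : ℂ) * ((α i v 0 + α i v 1) ^ 2 / (α i v 0 * α i v 1)))
    {y c κ : ℝ} (hz : 0 ≤ y - 1 + c) (hκ : 1 + c ^ 2 ≤ κ * (y - 1 + c) ^ 2) :
    RelLe g U (fun v => κ * (Module.finrank ℚ E : ℝ) ≤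
        (Nat.card {τ : E →ₐ[ℚ] ℂ // y * (qq v.1 : ℝ) ≤ ‖τ (t v)‖ ^ 2} : ℝ))
      (1 / (1 + (m : ℝ) * ((κ * (y - 1 + c) ^ 2 - (1 + c ^ 2)) ^ 2 / ((1 + 2 * c) ^ 2 + 1)))) := by
  have key := share μ h hU hf h0 (η := 1) (Or.inl rfl) hz hκ
  rw [mul_one] at key
  refine key.mono fun v hv => ?_
  have hq : (0 : ℝ) < (qq v.1 : ℝ) := Pool.Agent.TH861.GL3.qq_pos v.1
  have h1 := (share_iff e (fun r => y * (qq v.1 : ℝ) ≤ r) (hs v) (ht v) κ).1 hv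
  refine h1.trans (le_of_eq ?_)
  congr 1
  refine Nat.card_congr (Equiv.subtypeEquivRight fun i => ?_)
  rw [norm_u e h hu, one_mul]
  constructor
  · intro h2
    have h3 : (qq v.1 : ℝ) * y ≤ (qq v.1 : ℝ) * ‖α i v 0 + α i v 1‖ ^ 2 := by linarith
    have h4 := le_of_mul_le_mul_left h3 hq
    linarith
  · intro h2
    have h3 : (qq v.1 : ℝ) * y ≤ (qq v.1 : ℝ) * ‖α i v 0 + α i v 1‖ ^ 2 :=
      mul_le_mul_of_nonneg_left (by linarith) hq.le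
    linarith

theorem small_share (h : HeckeFamily X g α) (hU : MeasurableSet U) (hf : μ (frontier U) = 0)
    (h0 : 0 < μ.real U) (hs : ∀ v, ∃ n : ℕ, 0 < n ∧ s v ^ n = 1)
    (ht : ∀ v, algebraMap F E (u v) * s v = t v ^ 2)
    (hu : ∀ i v, e i (u v) = (qq v.1 : ℂ) * ((α i v 0 + α i v 1) ^ 2 / (α i v 0 * α i v 1)))
    {y c κ : ℝ} (hz : 0 ≤ 1 - y + c) (hκ : 1 + c ^ 2 ≤ κ * (1 - y + c) ^ 2) :
    RelLe g U (fun v => κ * (Module.finrank ℚ E : ℝ) ≤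
        (Nat.card {τ : E →ₐ[ℚ] ℂ // ‖τ (t v)‖ ^ 2 ≤ y * (qq v.1 : ℝ)} : ℝ))
      (1 / (1 + (m : ℝ) * ((κ * (1 - y + c) ^ 2 - (1 + c ^ 2)) ^ 2 / ((1 - 2 * c) ^ 2 + 1)))) := by
  have key := share μ h hU hf h0 (η := -1) (Or.inr rfl) hz hκ
  rw [show (1 + 2 * (-1) * c : ℝ) = 1 - 2 * c by ring] at key
  refine key.mono fun v hv => ?_
  have hq : (0 : ℝ) < (qq v.1 : ℝ) := Pool.Agent.TH861.GL3.qq_pos v.1
  have h1 := (share_iff e (fun r => r ≤ y * (qq v.1 : ℝ)) (hs v) (ht v) κ).1 hv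
  refine h1.trans (le_of_eq ?_)
  congr 1
  refine Nat.card_congr (Equiv.subtypeEquivRight fun i => ?_)
  rw [norm_u e h hu]
  constructor
  · intro h2
    have h3 : (qq v.1 : ℝ) * ‖α i v 0 + α i v 1‖ ^ 2 ≤ (qq v.1 : ℝ) * y := by linarith
    have h4 := le_of_mul_le_mul_left h3 hq
    linarith
  · intro h2
    have h3 : (qq v.1 : ℝ) * ‖α i v 0 + α i v 1‖ ^ 2 ≤ (qq v.1 : ℝ) * y :=
      mul_le_mul_of_nonneg_left (by linarith) hq.le
    linarith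

theorem violate (h : HeckeFamily X g α) (hU : MeasurableSet U) (hf : μ (frontier U) = 0)
    (h0 : 0 < μ.real U) (hs : ∀ v, ∃ n : ℕ, 0 < n ∧ s v ^ n = 1)
    (ht : ∀ v, algebraMap F E (u v) * s v = t v ^ 2)
    (hu : ∀ i v, e i (u v) = (qq v.1 : ℂ) * ((α i v 0 + α i v 1) ^ 2 / (α i v 0 * α i v 1)))
    {κ : ℝ} (hκ : 1 / 10 ≤ κ) :
    RelLe g U (fun v => κ * (Module.finrank ℚ E : ℝ) ≤
        (Nat.card {τ : E →ₐ[ℚ] ℂ // 2 * Real.sqrt (qq v.1 : ℝ) < ‖τ (t v)‖} : ℝ))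
      (1 / (1 + 50 / 153 * (10 * κ - 1) ^ 2 * (m : ℝ))) := by
  have key := large_share e μ h hU hf h0 hs ht hu (y := 4) (c := 1 / 3) (κ := κ) (by norm_num)
    (by norm_num; linarith)
  have e1 : (m : ℝ) * ((κ * (4 - 1 + 1 / 3) ^ 2 - (1 + (1 / 3) ^ 2)) ^ 2 / ((1 + 2 * (1 / 3)) ^ 2 + 1)) =
      50 / 153 * (10 * κ - 1) ^ 2 * (m : ℝ) := by ring
  rw [e1] at key
  refine key.mono fun v hv => hv.trans ?_
  have hle : Nat.card {τ : E →ₐ[ℚ] ℂ // 2 * Real.sqrt (qq v.1 : ℝ) < ‖τ (t v)‖} ≤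
      Nat.card {τ : E →ₐ[ℚ] ℂ // 4 * (qq v.1 : ℝ) ≤ ‖τ (t v)‖ ^ 2} := by
    refine Nat.card_le_card_of_injective (fun τ => ⟨τ.1, ?_⟩) fun a b hab => Subtype.ext (by
      simpa using congrArg Subtype.val hab)
    have h1 := τ.2
    have h2 : (2 * Real.sqrt (qq v.1 : ℝ)) ^ 2 = 4 * (qq v.1 : ℝ) := by
      rw [mul_pow, Real.sq_sqrt (by positivity)]
      norm_num
    rw [← h2]
    exact pow_le_pow_left₀ (by positivity) h1.le 2
  exact_mod_cast hle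

theorem zero (h : HeckeFamily X g α) (hU : MeasurableSet U) (hf : μ (frontier U) = 0)
    (h0 : 0 < μ.real U) (hs : ∀ v, ∃ n : ℕ, 0 < n ∧ s v ^ n = 1)
    (ht : ∀ v, algebraMap F E (u v) * s v = t v ^ 2)
    (hu : ∀ i v, e i (u v) = (qq v.1 : ℂ) * ((α i v 0 + α i v 1) ^ 2 / (α i v 0 * α i v 1))) :
    RelLe g U (fun v => t v = 0) (1 / (1 + 2 * (m : ℝ))) := by
  have key := small_share e μ h hU hf h0 hs ht hu (y := 0) (c := 1) (κ := 1) (by norm_num) (by norm_num)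
  have e1 : (m : ℝ) * ((1 * (1 - 0 + 1) ^ 2 - (1 + (1 : ℝ) ^ 2)) ^ 2 / ((1 - 2 * 1) ^ 2 + 1)) = 2 * (m : ℝ) := by
    ring
  rw [e1] at key
  refine key.mono fun v hv => ?_
  have h1 : Nat.card {τ : E →ₐ[ℚ] ℂ // ‖τ (t v)‖ ^ 2 ≤ 0 * (qq v.1 : ℝ)} = Module.finrank ℚ E := by
    rw [← AlgHom.card ℚ E ℂ, ← Nat.card_eq_fintype_card]
    refine Nat.card_congr (Equiv.subtypeUnivEquiv fun τ => ?_)
    rw [hv, map_zero, norm_zero]
    norm_num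
  rw [h1, one_mul]

end Pool.Agent.Run7.h546.SC
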